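import Pool.Agent.H87.QP.Targets

/-!
# A window with many near periods is near to a sum of few exponentials
-/

set_option autoImplicit false

namespace Pool.Agent.H67.QP

open Finset Pool.Agent.H18.MR Pool.Agent.H93.DE Pool.Agent.H6.N4D Pool.Agent.H93
  Pool.Agent.H93.ES Pool.Agent.H28.NW Pool.Agent.H87.QP

theorem nee (t : ℝ) : ‖ee t‖ = 1 := by
  unfold ee
  exact Complex.norm_exp_ofReal_mul_I _

theorem eadd (s t : ℝ) : ee (s + t) = ee s * ee t := by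
  unfold ee
  rw [← Complex.exp_add]
  congr 1
  push_cast
  ring

/-- Enumeration of the frequencies. -/
theorem enum_freq {α : Type} (S : Finset α) (R : ℕ) (hR : S.card ≤ R) (c : α → ℂ) (θ : α → ℝ)
    (hc : ∀ a, ‖c a‖ ≤ 1) : ∃ (b : ℕ → ℂ) (β : ℕ → ℝ), (∀ r, ‖b r‖ ≤ 1) ∧
    ∀ x : ℝ, ∑ r ∈ range R, b r * ee (β r * x) = ∑ a ∈ S, c a * ee (θ a * x) := by
  classical
  let e := S.equivFin
  refine ⟨fun r => if h : r < S.card then c (e.symm ⟨r, h⟩) else 0,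
    fun r => if h : r < S.card then θ (e.symm ⟨r, h⟩) else 0, ?_, ?_⟩
  · intro r
    by_cases h : r < S.card
    · simp only [dif_pos h]
      exact hc _
    · simp only [dif_neg h, norm_zero]
      exact zero_le_one
  · intro x
    rw [← Finset.sum_subset (Finset.range_mono hR)]
    · rw [Finset.sum_range]
      have h1 : ∀ i : Fin S.card, (if h : (i : ℕ) < S.card then c (e.symm ⟨i, h⟩) else 0) *
          ee ((if h : (i : ℕ) < S.card then θ (e.symm ⟨i, h⟩) else 0) * x) =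
          c (e.symm i) * ee (θ (e.symm i) * x) := by
        intro i
        rw [dif_pos i.2, dif_pos i.2]
      rw [Finset.sum_congr rfl fun i _ => h1 i,
        Equiv.sum_comp e.symm (fun a : S => c a * ee (θ a * x))]
      exact Finset.sum_coe_sort S (fun a => c a * ee (θ a * x))
    · intro r _ hr
      have h1 : ¬ r < S.card := by
        simpa using hr
      simp only [dif_neg h1, zero_mul]

/-- The estimate on one window. -/
theorem window (f : ℕ → ℝ) (n S A M h : ℕ) [NeZero M] (Q : Finset ℕ) (ε : ℕ → ℝ) (η : ℝ)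
    (hq : ∀ q ∈ Q, q * h ≤ A) (hAn : A ≤ n) (hM : 2 * A + S < M) (hM2 : M = 2 * S)
    (h4 : 4 * (A : ℝ) ≤ η * S) (F : Finset (ZMod M)) (b : ZMod M → ℂ)
    (h1 : ∑ x ∈ Ioc n (n + S), (f x - (∑ q ∈ Q, ∑ q' ∈ Q,
      ε q * ε q' * f (x + q * h - q' * h)) / (Q.card : ℝ) ^ 2) ^ 2 ≤ 8 * η * S + 4 * A)
    (h2 : ∑ x : ZMod M, ‖(∑ q ∈ Q, ∑ q' ∈ Q, ((ε q * ε q' : ℝ) : ℂ) *
      ((f (n - A + (x + ((q * h : ℕ) : ZMod M) - ((q' * h : ℕ) : ZMod M)).val) : ℝ) : ℂ)) /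
        (Q.card : ℂ) ^ 2 - ∑ ξ ∈ F, b ξ * ee ((ξ.val : ℝ) / M * x.val)‖ ^ 2 ≤ η * M) :
    ∑ x ∈ Ioc n (n + S), ‖(f x : ℂ) - ∑ ξ ∈ F, (b ξ * ee (-((ξ.val : ℝ) / M * (n - A)))) *
      ee ((ξ.val : ℝ) / M * x)‖ ^ 2 ≤ 22 * η * S := by
  classical
  obtain ⟨φ, hφ⟩ : ∃ φ : ℕ → ZMod M, φ = fun x => ((x - (n - A) : ℕ) : ZMod M) := ⟨_, rfl⟩
  obtain ⟨P, hP⟩ : ∃ P : ℕ → ℝ, P = fun x => (∑ q ∈ Q, ∑ q' ∈ Q,
      ε q * ε q' * f (x + q * h - q' * h)) / (Q.card : ℝ) ^ 2 := ⟨_, rfl⟩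
  obtain ⟨G, hG⟩ : ∃ G : ZMod M → ℝ, G = fun x => ‖(∑ q ∈ Q, ∑ q' ∈ Q, ((ε q * ε q' : ℝ) : ℂ) *
      ((f (n - A + (x + ((q * h : ℕ) : ZMod M) - ((q' * h : ℕ) : ZMod M)).val) : ℝ) : ℂ)) /
        (Q.card : ℂ) ^ 2 - ∑ ξ ∈ F, b ξ * ee ((ξ.val : ℝ) / M * x.val)‖ ^ 2 := ⟨_, rfl⟩
  have hval : ∀ x ∈ Ioc n (n + S), (φ x).val = x - (n - A) := by
    intro x hx
    obtain ⟨hx1, hx2⟩ := Finset.mem_Ioc.1 hx
    rw [hφ]
    exact ZMod.val_cast_of_lt (by omega)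
  have hsh : ∀ x ∈ Ioc n (n + S), ∀ q ∈ Q, ∀ q' ∈ Q,
      n - A + (φ x + ((q * h : ℕ) : ZMod M) - ((q' * h : ℕ) : ZMod M)).val =
        x + q * h - q' * h := by
    intro x hx q hqQ q' hqQ'
    obtain ⟨hx1, hx2⟩ := Finset.mem_Ioc.1 hx
    have a1 := hq q hqQ
    have a2 := hq q' hqQ'
    have e1 : φ x + ((q * h : ℕ) : ZMod M) - ((q' * h : ℕ) : ZMod M) =
        ((x - (n - A) + q * h - q' * h : ℕ) : ZMod M) := by
      rw [hφ, Nat.cast_sub (by omega), Nat.cast_add]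
    rw [e1, ZMod.val_cast_of_lt (by omega)]
    omega
  have hterm : ∀ x ∈ Ioc n (n + S), ‖(f x : ℂ) - ∑ ξ ∈ F,
      (b ξ * ee (-((ξ.val : ℝ) / M * (n - A)))) * ee ((ξ.val : ℝ) / M * x)‖ ^ 2 ≤
      2 * (f x - P x) ^ 2 + 2 * G (φ x) := by
    intro x hx
    obtain ⟨hx1, hx2⟩ := Finset.mem_Ioc.1 hx
    have e1 : ∑ ξ ∈ F, (b ξ * ee (-((ξ.val : ℝ) / M * (n - A)))) * ee ((ξ.val : ℝ) / M * x) =
        ∑ ξ ∈ F, b ξ * ee ((ξ.val : ℝ) / M * (φ x).val) := by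
      refine Finset.sum_congr rfl fun ξ _ => ?_
      rw [mul_assoc, ← eadd, hval x hx, Nat.cast_sub (by omega), Nat.cast_sub hAn]
      congr 2
      ring
    have e2 : ((P x : ℝ) : ℂ) = (∑ q ∈ Q, ∑ q' ∈ Q, ((ε q * ε q' : ℝ) : ℂ) *
      ((f (n - A + (φ x + ((q * h : ℕ) : ZMod M) - ((q' * h : ℕ) : ZMod M)).val) : ℝ) : ℂ)) /
        (Q.card : ℂ) ^ 2 := by
      rw [hP]
      push_cast
      congr 1
      refine Finset.sum_congr rfl fun q hqQ => Finset.sum_congr rfl fun q' hqQ' => ?_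
      have := hsh x hx q hqQ q' hqQ'
      push_cast at this
      rw [this]
    have e3 : G (φ x) = ‖((P x : ℝ) : ℂ) - ∑ ξ ∈ F, b ξ * ee ((ξ.val : ℝ) / M * (φ x).val)‖ ^ 2 := by
      rw [hG]
      simp only
      rw [← e2]
    rw [e1, e3]
    have e4 : (f x : ℂ) - ∑ ξ ∈ F, b ξ * ee ((ξ.val : ℝ) / M * (φ x).val) =
        ((f x - P x : ℝ) : ℂ) +
          (((P x : ℝ) : ℂ) - ∑ ξ ∈ F, b ξ * ee ((ξ.val : ℝ) / M * (φ x).val)) := by
      push_cast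
      ring
    rw [e4]
    have e5 : ‖((f x - P x : ℝ) : ℂ)‖ ^ 2 = (f x - P x) ^ 2 := by
      rw [Complex.norm_real, Real.norm_eq_abs, sq_abs]
    rw [← e5]
    have e6 := norm_add_le ((f x - P x : ℝ) : ℂ)
      (((P x : ℝ) : ℂ) - ∑ ξ ∈ F, b ξ * ee ((ξ.val : ℝ) / M * (φ x).val))
    have e7 := norm_nonneg (((f x - P x : ℝ) : ℂ) +
      (((P x : ℝ) : ℂ) - ∑ ξ ∈ F, b ξ * ee ((ξ.val : ℝ) / M * (φ x).val)))
    nlinarith [pow_le_pow_left₀ e7 e6 2, sq_nonneg (‖((f x - P x : ℝ) : ℂ)‖ -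
      ‖((P x : ℝ) : ℂ) - ∑ ξ ∈ F, b ξ * ee ((ξ.val : ℝ) / M * (φ x).val)‖)]
  have hGs : ∑ x ∈ Ioc n (n + S), G (φ x) ≤ η * M := by
    have hinj : Set.InjOn φ (Ioc n (n + S) : Finset ℕ) := by
      intro x hx x' hx' hxx
      have hx := Finset.mem_coe.1 hx
      have hx' := Finset.mem_coe.1 hx'
      have e1 := hval x hx
      have e2 := hval x' hx'
      rw [hxx, e2] at e1
      obtain ⟨hx1, hx2⟩ := Finset.mem_Ioc.1 hx
      obtain ⟨hx3, hx4⟩ := Finset.mem_Ioc.1 hx'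
      omega
    calc ∑ x ∈ Ioc n (n + S), G (φ x) = ∑ z ∈ (Ioc n (n + S)).image φ, G z :=
          (Finset.sum_image hinj).symm
      _ ≤ ∑ z : ZMod M, G z := by
          refine Finset.sum_le_sum_of_subset_of_nonneg (Finset.subset_univ _) fun z _ _ => ?_
          rw [hG]
          positivity
      _ ≤ η * M := by
          rw [hG]
          exact h2
  have hMR : (M : ℝ) = 2 * S := by
    rw [hM2]
    push_cast
    ring
  have h1' : ∑ x ∈ Ioc n (n + S), (f x - P x) ^ 2 ≤ 8 * η * S + 4 * A := by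
    rw [hP]
    exact h1
  calc _ ≤ ∑ x ∈ Ioc n (n + S), (2 * (f x - P x) ^ 2 + 2 * G (φ x)) := Finset.sum_le_sum hterm
    _ = 2 * ∑ x ∈ Ioc n (n + S), (f x - P x) ^ 2 + 2 * ∑ x ∈ Ioc n (n + S), G (φ x) := by
        rw [Finset.sum_add_distrib, Finset.mul_sum, Finset.mul_sum]
    _ ≤ 22 * η * S := by
        rw [hMR] at hGs
        nlinarith

theorem pf_MOD (hE : T_PEN) (hF : T_FOU) (hN : T_NEA) (hP : Pool.Agent.H93.DE.T_PIL) : T_MOD := by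
  classical
  intro H η hH hη hη1
  obtain ⟨C, hC, hE⟩ := hE
  obtain ⟨c, m₁, hc, hP⟩ := hP
  have hHR : (1 : ℝ) ≤ H := by exact_mod_cast hH
  obtain ⟨B, hB⟩ : ∃ B : ℕ, 16 * (H : ℝ) / η ≤ 2 ^ B := by
    obtain ⟨B, hB⟩ := pow_unbounded_of_one_lt (16 * (H : ℝ) / η) (one_lt_two : (1 : ℝ) < 2)
    exact ⟨B, hB.le⟩
  have hB1 : 16 * (H : ℝ) ≤ η * 2 ^ B := by
    rw [div_le_iff₀ hη] at hB
    linarith
  have hB2 : 16 * (H : ℝ) ≤ 2 ^ B := by
    have : η * 2 ^ B ≤ 1 * (2 : ℝ) ^ B := by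
      refine mul_le_mul_of_nonneg_right hη1 (by positivity)
    linarith
  have hB3 : 16 * H ≤ 2 ^ B := by exact_mod_cast hB2
  refine ⟨B, ⌈2 ^ (B + 1) * C * (2 * H) ^ 4 / (η * c ^ 4)⌉₊, max m₁ 1, ?_⟩
  intro m n f hm hn hf hQ0
  have hm1 : m₁ ≤ m := (le_max_left _ _).trans hm
  have hm2 : 1 ≤ m := (le_max_right _ _).trans hm
  have hmR : (1 : ℝ) ≤ m := by exact_mod_cast hm2
  obtain ⟨S, hS⟩ : ∃ S : ℕ, S = 2 ^ (m + B) := ⟨_, rfl⟩
  obtain ⟨A, hA⟩ : ∃ A : ℕ, A = 2 ^ (m + 1) * H := ⟨_, rfl⟩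
  obtain ⟨M, hM⟩ : ∃ M : ℕ, M = 2 ^ (m + B + 1) := ⟨_, rfl⟩
  rw [← hS] at hQ0 ⊢
  rw [← hA] at hn
  have hA8 : 8 * A ≤ S := by
    rw [hA, hS]
    calc 8 * (2 ^ (m + 1) * H) = 2 ^ m * (16 * H) := by ring
      _ ≤ 2 ^ m * 2 ^ B := Nat.mul_le_mul_left _ hB3
      _ = 2 ^ (m + B) := (pow_add 2 m B).symm
  have hA0 : 0 < A := by
    rw [hA]
    positivity
  have hM2 : M = 2 * S := by
    rw [hM, hS]
    ring
  have h4 : 4 * (A : ℝ) ≤ η * S := by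
    rw [hA, hS]
    push_cast
    calc 4 * (2 ^ (m + 1) * (H : ℝ)) = 2 ^ m * (8 * H) := by ring
      _ ≤ 2 ^ m * (η * 2 ^ B) := by
          refine mul_le_mul_of_nonneg_left ?_ (by positivity)
          linarith
      _ = η * 2 ^ (m + B) := by
          rw [pow_add]
          ring
  have : NeZero M := ⟨by omega⟩
  -- the shifts
  obtain ⟨Q0, hQ0d⟩ : ∃ Q0 : Finset ℕ, Q0 = (oct m).filter
      (fun q => 1 - η ≤ mx H (fun h => |rh f S n (q * h)|)) := ⟨_, rfl⟩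
  rw [← hQ0d] at hQ0
  have hex : ∀ q, ∃ h, 1 ≤ h ∧ h ≤ H ∧ mx H (fun h => |rh f S n (q * h)|) =
      |rh f S n (q * h)| := fun q => exists_mx _ hH
  choose hq hq1 hq2 hq3 using hex
  obtain ⟨h, hh, hcard⟩ : ∃ h ∈ Icc 1 H, (Q0.card : ℝ) / H ≤
      ((Q0.filter (fun q => hq q = h)).card : ℝ) := by
    refine Finset.exists_le_of_sum_le (s := Icc 1 H) ⟨1, by simp [hH]⟩ ?_
    have e1 : ∑ h ∈ Icc 1 H, ((Q0.filter (fun q => hq q = h)).card : ℝ) = Q0.card := by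
      have e2 := Finset.card_eq_sum_card_fiberwise (f := hq) (s := Q0) (t := Icc 1 H)
        (fun q _ => by
          simp only [Finset.coe_Icc, Set.mem_Icc]
          exact ⟨hq1 q, hq2 q⟩)
      rw [e2]
      push_cast
      rfl
    rw [e1, Finset.sum_const, nsmul_eq_mul, Nat.card_Icc]
    have e3 : ((H + 1 - 1 : ℕ) : ℝ) = H := by simp
    rw [e3]
    field_simp
    exact le_refl _
  obtain ⟨hh1, hh2⟩ := Finset.mem_Icc.1 hh
  obtain ⟨Q, hQ⟩ : ∃ Q : Finset ℕ, Q = Q0.filter (fun q => hq q = h) := ⟨_, rfl⟩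
  rw [← hQ] at hcard
  have hmem : ∀ q ∈ Q, q.Prime ∧ 2 ^ m < q ∧ q ≤ 2 ^ (m + 1) ∧
      1 - η ≤ |rh f S n (q * h)| := by
    intro q hqq
    rw [hQ, Finset.mem_filter, hQ0d, Finset.mem_filter] at hqq
    obtain ⟨⟨a1, a2⟩, a3⟩ := hqq
    unfold oct at a1
    rw [Finset.mem_filter, Finset.mem_Ioc] at a1
    refine ⟨a1.2, a1.1.1, a1.1.2, ?_⟩
    rw [hq3 q, a3] at a2
    exact a2
  have hlow : c * 2 ^ m / (2 * H * m) ≤ (Q.card : ℝ) := by
    refine le_trans ?_ hcard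
    rw [le_div_iff₀ (by linarith)]
    have e1 := hP m hm1
    have e2 : c * 2 ^ m / (2 * H * m) * H = (c * 2 ^ m / m) / 2 := by
      field_simp
    rw [e2]
    linarith
  have hpos : 0 < c * 2 ^ m / (2 * H * m) := by positivity
  have hQpos : (0 : ℝ) < Q.card := hpos.trans_le hlow
  have hQne : Q.Nonempty := by
    rw [← Finset.card_pos]
    exact_mod_cast hQpos
  obtain ⟨ε, hε⟩ : ∃ ε : ℕ → ℝ, ε = fun q => if 0 ≤ rh f S n (q * h) then 1 else -1 := ⟨_, rfl⟩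
  have hε1 : ∀ q, ε q = 1 ∨ ε q = -1 := by
    intro q
    rw [hε]
    simp only
    split_ifs
    · exact Or.inl rfl
    · exact Or.inr rfl
  have hε2 : ∀ q, ε q * rh f S n (q * h) = |rh f S n (q * h)| := by
    intro q
    rw [hε]
    simp only
    split_ifs with h0
    · rw [one_mul, abs_of_nonneg h0]
    · rw [abs_of_neg (not_le.1 h0)]
      ring
  have hqA : ∀ q ∈ Q, q * h ≤ A := by
    intro q hqq
    rw [hA]
    exact Nat.mul_le_mul (hmem q hqq).2.2.1 hh2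
  have c1 := hN f n S A h Q ε η hf hQne hqA hn (by omega) (fun q _ => hε1 q) (fun q hqq => by
    rw [hε2 q]
    exact (hmem q hqq).2.2.2)
  obtain ⟨F, b, hFc, hb, hFs⟩ := hF M h Q ε (fun y => ((f (n - A + y.val) : ℝ) : ℂ)) (Real.sqrt η)
    (Real.sqrt_pos.2 hη) hh1 hQne (fun q hqq => by
      have := hqA q hqq
      omega) (fun q => by
      rcases hε1 q with h0 | h0
      · rw [h0, abs_one]
      · rw [h0, abs_neg, abs_one]) (fun y => by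
      rw [Complex.norm_real, Real.norm_eq_abs]
      rcases hf (n - A + y.val) with h0 | h0
      · rw [h0, abs_one]
      · rw [h0, abs_neg, abs_one])
  rw [Real.sq_sqrt hη.le] at hFc hFs
  have hwin := window f n S A M h Q ε η hqA hn (by omega) hM2 h4 F b c1 hFs
  -- number of frequencies
  have hen := hE m Q hm2 (fun q hqq => ⟨(hmem q hqq).1, (hmem q hqq).2.1.le, (hmem q hqq).2.2.1⟩)
  have hFR : F.card ≤ ⌈2 ^ (B + 1) * C * (2 * H) ^ 4 / (η * c ^ 4)⌉₊ := by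
    have e1 : (F.card : ℝ) ≤ 2 ^ (B + 1) * C * (2 * H) ^ 4 / (η * c ^ 4) := by
      refine hFc.trans ?_
      have e2 : η * (c * 2 ^ m / (2 * H * m)) ^ 4 ≤ η * (Q.card : ℝ) ^ 4 :=
        mul_le_mul_of_nonneg_left (pow_le_pow_left₀ hpos.le hlow 4) hη.le
      have e3 : 0 < η * (c * 2 ^ m / (2 * H * m)) ^ 4 := by positivity
      calc _ ≤ (M : ℝ) * (C * 2 ^ (3 * m) / (m : ℝ) ^ 4) /
            (η * (c * 2 ^ m / (2 * H * m)) ^ 4) := by
            refine div_le_div₀ (by positivity) ?_ e3 e2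
            exact mul_le_mul_of_nonneg_left hen (Nat.cast_nonneg _)
        _ = 2 ^ (B + 1) * C * (2 * H) ^ 4 / (η * c ^ 4) := by
            have e4 : (M : ℝ) = 2 ^ m * 2 ^ (B + 1) := by
              rw [hM]
              push_cast
              ring
            have e5 : (2 : ℝ) ^ (3 * m) = (2 ^ m) ^ 3 := by
              rw [← pow_mul, mul_comm]
            rw [e4, e5]
            have e6 : (2 : ℝ) ^ m ≠ 0 := by positivity
            have e7 : (m : ℝ) ≠ 0 := by positivity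
            have e8 : (H : ℝ) ≠ 0 := by positivity
            generalize (2 : ℝ) ^ m = Y at *
            generalize (2 : ℝ) ^ (B + 1) = Z at *
            field_simp
    exact_mod_cast e1.trans (Nat.le_ceil _)
  obtain ⟨b', β, hb', hsum⟩ := enum_freq F _ hFR
    (fun ξ => b ξ * ee (-((ξ.val : ℝ) / M * (n - A)))) (fun ξ => (ξ.val : ℝ) / M) (fun ξ => by
      rw [norm_mul, nee, mul_one]
      exact hb ξ)
  refine ⟨b', β, hb', ?_⟩
  have hSpos : (0 : ℝ) < S := by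
    have : 0 < S := by omega
    exact_mod_cast this
  rw [div_le_iff₀ hSpos]
  have e1 : ∀ x ∈ Ioc n (n + S), ‖(f x : ℂ) - ∑ r ∈ range ⌈2 ^ (B + 1) * C * (2 * H) ^ 4 /
      (η * c ^ 4)⌉₊, b' r * ee (β r * x)‖ ^ 2 = ‖(f x : ℂ) - ∑ ξ ∈ F,
        (b ξ * ee (-((ξ.val : ℝ) / M * (n - A)))) * ee ((ξ.val : ℝ) / M * x)‖ ^ 2 := by
    intro x _
    rw [hsum (x : ℝ)]
  rw [Finset.sum_congr rfl e1]
  refine hwin.trans ?_
  have : 0 ≤ η * S := by positivity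
  nlinarith

end Pool.Agent.H67.QP
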